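import Pool.Agent.Helper35.MS.StJ

/-!
# Project MS: module DMJ (diameter bound)
-/

set_option autoImplicit false

namespace Pool.Agent.Helper41.MS

open Helper35.MS Helper35.PI Helper35.PI2 Helper32.CL Pool.Agent.Helper35.CL
open scoped ContDiff Manifold Topology ENNReal BigOperators
open MeasureTheory Set Filter

theorem dmSlice {M : Type} [TopologicalSpace M] {V : Type} [TopologicalSpace V] {J : Set ℝ}
    {g : M → ℝ → V} (h : CSTJ J g) {t : ℝ} (ht : t ∈ J) : Continuous fun q => g q t := by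
  have h1 : ContinuousOn (fun z : M × ℝ => g z.1 z.2) (univ ×ˢ J) := h
  have h2 : ContinuousOn ((fun z : M × ℝ => g z.1 z.2) ∘ fun q : M => (q, t)) univ :=
    h1.comp (by fun_prop) (fun q _ => ⟨mem_univ _, ht⟩)
  exact continuousOn_univ.1 h2

/-- the final computation -/
theorem dmArith (D W a : ℝ) (k : ℕ) (hD : 0 < D) (hW : 0 ≤ W) (ha : 0 ≤ a)
    (hk1 : W / 2 + 1 ≤ k) (hk2 : (k : ℝ) ≤ W / 2 + 2)
    (h : ((k : ℝ) + 1) / 2 ≤ 4 / (D / (2 * k)) ^ 2 * a + 1 / 8 * W) :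
    D ^ 2 ≤ (32 * W + 128) * a := by
  have hk0 : (0 : ℝ) < k := by linarith
  have e1 : 4 / (D / (2 * k)) ^ 2 * a = 16 * (k : ℝ) ^ 2 * a / D ^ 2 := by
    field_simp
    ring
  rw [e1] at h
  have h1 : W / 8 + 1 ≤ 16 * (k : ℝ) ^ 2 * a / D ^ 2 := by linarith
  rw [le_div_iff₀ (by positivity)] at h1
  have h2 : (k : ℝ) ^ 2 ≤ (W / 2 + 2) ^ 2 := by gcongr
  have h3 : (W / 8 + 1) * D ^ 2 ≤ 16 * (W / 2 + 2) ^ 2 * a := by
    refine h1.trans ?_
    gcongr
  have h4 : 16 * (W / 2 + 2) ^ 2 * a ≤ (W / 8 + 1) * ((32 * W + 128) * a) := by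
    have : (W / 8 + 1) * ((32 * W + 128) * a) - 16 * (W / 2 + 2) ^ 2 * a = 16 * (W + 4) * a := by
      ring
    have h5 : 0 ≤ 16 * (W + 4) * a := by positivity
    linarith
  exact le_of_mul_le_mul_left (h3.trans h4) (by positivity)

theorem hDMJ (hLDJ : StLDJ) (hMUJ : StMUJ) (hI4J : StI4J) : StDMJ := by
  intro N M _ _ _ _ _ _ _ _ J F c χ hS t ht p q
  obtain ⟨s, -, hs⟩ := hMUJ 2 N M J F c χ hS
  obtain ⟨hfin, -, hint⟩ := hs t ht
  obtain ⟨c1, c2, -, -⟩ := hI4J 2 N M J F hS.mcf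
  have hF : Continuous fun z => F z t := dmSlice c1 ht
  have hH : Continuous fun z => HH (n := 2) F z t := dmSlice c2 ht
  have hH2 : Continuous fun z => ‖HH (n := 2) F z t‖ ^ 2 := hH.norm.pow 2
  obtain ⟨μ, hμ⟩ : ∃ μ, μ = muM 2 F c χ t := ⟨_, rfl⟩
  have hLD' := hLDJ N M J F c χ hS t ht
  rw [← hμ] at hfin hint hLD' ⊢
  have : IsFiniteMeasure μ := ⟨hfin⟩
  have hI := (hint _ hH2).1
  obtain ⟨W, hW⟩ : ∃ W, W = ∫ z, ‖HH (n := 2) F z t‖ ^ 2 ∂μ := ⟨_, rfl⟩
  rw [← hW]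
  have hW0 : 0 ≤ W := by
    rw [hW]
    exact integral_nonneg fun z => by positivity
  have ha0 : 0 ≤ μ.real univ := measureReal_nonneg
  obtain ⟨D, hD⟩ : ∃ D, D = ‖F p t - F q t‖ := ⟨_, rfl⟩
  rw [← hD]
  have hD0 : 0 ≤ D := by rw [hD]; exact norm_nonneg _
  rcases hD0.eq_or_lt with h0 | h0
  · rw [← h0]
    have : 0 ≤ (32 * W + 128) * μ.real univ := by positivity
    simpa using this
  obtain ⟨k, hk⟩ : ∃ k : ℕ, k = ⌈W / 2⌉₊ + 1 := ⟨_, rfl⟩
  have hk1 : W / 2 + 1 ≤ k := by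
    rw [hk]
    push_cast
    linarith [Nat.le_ceil (W / 2)]
  have hk2 : (k : ℝ) ≤ W / 2 + 2 := by
    rw [hk]
    push_cast
    linarith [Nat.ceil_lt_add_one (show 0 ≤ W / 2 by linarith)]
  have hk0 : (0 : ℝ) < k := by linarith
  obtain ⟨r, hr⟩ : ∃ r, r = D / (2 * k) := ⟨_, rfl⟩
  have hr0 : 0 < r := by rw [hr]; positivity
  have hrD : 2 * r * k = D := by
    rw [hr]
    field_simp
  -- the points
  have hq : ∀ j ∈ Finset.range (k + 1), ∃ z : M, ‖F z t - F p t‖ = 2 * r * j := by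
    intro j hj
    rw [Finset.mem_range] at hj
    have hj' : (j : ℝ) ≤ k := by exact_mod_cast (by omega : j ≤ k)
    have hc : Continuous fun z => ‖F z t - F p t‖ := (hF.sub continuous_const).norm
    obtain ⟨z, hz⟩ := mem_range_of_exists_le_of_exists_ge hc
      (c := 2 * r * j) ⟨p, by simp; positivity⟩ ⟨q, by
        rw [norm_sub_rev, ← hD, ← hrD]
        gcongr⟩
    exact ⟨z, hz⟩
  choose! z hz using hq
  obtain ⟨B, hB⟩ : ∃ B : ℕ → Set M, B = fun j => bl F t (F (z j) t) r := ⟨_, rfl⟩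
  have hBm : ∀ j, MeasurableSet (B j) := by
    intro j
    rw [hB]
    exact (isOpen_lt (hF.sub continuous_const).norm continuous_const).measurableSet
  have hBd : (↑(Finset.range (k + 1)) : Set ℕ).Pairwise (Function.onFun Disjoint B) := by
    intro i hi j hj hij
    rw [Finset.mem_coe] at hi hj
    rw [Function.onFun, Set.disjoint_left]
    intro x hx1 hx2
    rw [hB] at hx1 hx2
    have y1 : ‖F x t - F (z i) t‖ < r := hx1
    have y2 : ‖F x t - F (z j) t‖ < r := hx2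
    have y3 : |‖F (z i) t - F p t‖ - ‖F (z j) t - F p t‖| < 2 * r := by
      have t1 := abs_norm_sub_norm_le (F (z i) t - F p t) (F (z j) t - F p t)
      have t2 : (F (z i) t - F p t) - (F (z j) t - F p t) =
          (F x t - F (z j) t) - (F x t - F (z i) t) := by abel
      rw [t2] at t1
      have t3 := norm_sub_le (F x t - F (z j) t) (F x t - F (z i) t)
      linarith
    rw [hz i hi, hz j hj, ← mul_sub, abs_mul, abs_of_pos (by positivity : 0 < 2 * r)] at y3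
    have y4 : |(i : ℝ) - j| < 1 := by
      by_contra h
      push Not at h
      have : 2 * r * 1 ≤ 2 * r * |(i : ℝ) - j| := by gcongr
      linarith
    have y5 : (1 : ℝ) ≤ |(i : ℝ) - j| := by
      have : (1 : ℤ) ≤ |(i : ℤ) - j| := Int.one_le_abs (by omega)
      exact_mod_cast this
    linarith
  have hld : ∀ j ∈ Finset.range (k + 1), (1 : ℝ) / 2 ≤ 4 / r ^ 2 * μ.real (B j)
      + 1 / 8 * ∫ x in B j, ‖HH (n := 2) F x t‖ ^ 2 ∂μ := by
    intro j _
    rw [hB]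
    exact hLD' (z j) r hr0
  have hsum := Finset.sum_le_sum hld
  rw [Finset.sum_const, Finset.card_range, nsmul_eq_mul, Finset.sum_add_distrib,
    ← Finset.mul_sum, ← Finset.mul_sum] at hsum
  have s1 : ∑ j ∈ Finset.range (k + 1), μ.real (B j) ≤ μ.real univ := by
    rw [← measureReal_biUnion_finset hBd (fun j _ => hBm j)]
    exact measureReal_mono (subset_univ _)
  have s2 : ∑ j ∈ Finset.range (k + 1), ∫ x in B j, ‖HH (n := 2) F x t‖ ^ 2 ∂μ ≤ W := by
    rw [← integral_biUnion_finset _ (fun j _ => hBm j) hBd (fun j _ => hI.integrableOn), hW]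
    exact setIntegral_le_integral hI (Eventually.of_forall fun x => by positivity)
  have hfinal : ((k : ℝ) + 1) / 2 ≤ 4 / (D / (2 * k)) ^ 2 * μ.real univ + 1 / 8 * W := by
    rw [← hr]
    have u1 : 4 / r ^ 2 * ∑ j ∈ Finset.range (k + 1), μ.real (B j) ≤
        4 / r ^ 2 * μ.real univ := by gcongr
    push_cast at hsum
    linarith
  exact dmArith D W _ k h0 hW0 ha0 hk1 hk2 hfinal

end Pool.Agent.Helper41.MS
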